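import Mathlib
import Pool.Agent.Helper92.CI.Many
import Pool.Agent.Helper47.HK.Prime
import Pool.Agent.Helper47.HK.Ni
import Pool.Agent.Helper82.HK.Gen
import Pool.Agent.Helper77.HK.Perm
import Pool.Agent.Helper69.HK.Pts
import Pool.Agent.Helper64.XI.Alg

/-!
# Project HK: the final theorem from the inputs
-/

namespace Pool.Agent.Helper92.HK

open MvPolynomial Pool.Agent.Helper64.HK Pool.Agent.Helper47.HK Pool.Agent.Helper77.HK
  Pool.Agent.Helper82.HK.Gen AlgebraicGeometry CategoryTheory Pool.Agent.Helper15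
open Pool.Agent.Helper28.HN (I aff)
open Pool.Agent.Helper24.HK (NoPair)

theorem full_of {k m : ℕ} (a : Fin (k + 1) → Fin (m + 1))
    (hNS : ∀ a' : Fin (k + 1) → Fin (m + 1), ∃ Δ : MvPolynomial (Ix a') ℚ, Δ ≠ 0 ∧
      ∀ (K : Type) [Field K] [NumberField K] (c : Ix a' → K), aeval c Δ ≠ 0 → NS c ∧ Dp c ≠ 0)
    (hnp : ∃ Δ : MvPolynomial (Ix a) ℚ, Δ ≠ 0 ∧
      ∀ (K : Type) [Field K] [NumberField K] (c : Ix a → K), aeval c Δ ≠ 0 →
        ∃ (L : Type) (_ : Field L) (_ : NumberField L) (_ : Algebra K L),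
          NoPair (fun e => algebraMap K L (c e)))
    (hni : ∃ Δ : MvPolynomial (Ix a) ℚ, Δ ≠ 0 ∧
      ∀ (L : Type) [Field L] [NumberField L] (c : Ix a → L), aeval c Δ ≠ 0 → NoPair c →
      ∀ F : MvPolynomial (Fin k × Fin (m + 1)) L,
        (∀ P : Fin (k + 1) → I m → L, OnX c P → P 0 ≠ 0 → (∀ j : Fin k, P j.succ 0 = 1) →
          eval (fun q => P q.1.succ q.2.succ) F = 0) → F = 0) :
    ∃ Δ : MvPolynomial (Ix a) ℚ, Δ ≠ 0 ∧ ∀ (K : Type) [Field K] [NumberField K]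
      (c : Ix a → K), aeval c Δ ≠ 0 → CI.Good K (CI.natI c) (k * (m + 1)) := by
  classical
  have hnz : ∀ a' : Fin (k + 1) → Fin (m + 1), ∃ Δ : MvPolynomial (Ix a') ℚ, Δ ≠ 0 ∧
      ∀ (K : Type) [Field K] [NumberField K] (c : Ix a' → K), aeval c Δ ≠ 0 →
        NS c ∧ Dp c ≠ 0 ∧ (chartIdeal c).IsPrime ∧ Dom (chartIdeal c) := by
    intro a'
    obtain ⟨Δ1, hΔ1, H1⟩ := hNS a'
    obtain ⟨Δ2, hΔ2, H2⟩ := chart_nzd (a := a') (by
      obtain ⟨c, hc⟩ := HN.exists_rat hΔ1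
      exact ⟨c, H1 ℚ c hc⟩)
    refine ⟨Δ1 * Δ2, mul_ne_zero hΔ1 hΔ2, fun K _ _ c hc => ?_⟩
    rw [map_mul, mul_ne_zero_iff] at hc
    obtain ⟨h1, h2⟩ := H1 K c hc.1
    exact ⟨h1, h2, chart_eq_dom h1 h2 (H2 K c hc.2)⟩
  obtain ⟨Δ1, hΔ1, H1⟩ := hnz a
  have hr : ∀ r : Fin (k + 1), ∃ Δ : MvPolynomial (Ix (a ∘ Equiv.swap 0 r)) ℚ, Δ ≠ 0 ∧
      ∀ (K : Type) [Field K] [NumberField K] (c : Ix (a ∘ Equiv.swap 0 r) → K),
        aeval c Δ ≠ 0 → Dom (chartIdeal c) := by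
    intro r
    obtain ⟨Δ, hΔ, H⟩ := hnz (a ∘ Equiv.swap 0 r)
    exact ⟨Δ, hΔ, fun K _ _ c hc => (H K c hc).2.2.2⟩
  choose Δ2 hΔ2 H2 using hr
  obtain ⟨Δ3, hΔ3, H3⟩ := hnp
  obtain ⟨Δ4, hΔ4, H4⟩ := hni
  refine ⟨Δ1 * (∏ r, rename (pm (Equiv.swap 0 r)) (Δ2 r)) * Δ3 * Δ4,
    mul_ne_zero (mul_ne_zero (mul_ne_zero hΔ1 (Finset.prod_ne_zero_iff.mpr fun r _ =>
      (map_ne_zero_iff _ (rename_injective _ (pm_injective _))).mpr (hΔ2 r))) hΔ3) hΔ4,
    fun K _ _ c hc => ?_⟩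
  simp only [map_mul, map_prod, mul_ne_zero_iff, aeval_rename] at hc
  obtain ⟨⟨⟨h1, h2⟩, h3⟩, h4⟩ := hc
  rw [Finset.prod_ne_zero_iff] at h2
  obtain ⟨hns, hD, hprime, hdom⟩ := H1 K c h1
  obtain ⟨L, _, _, _, hL⟩ := H3 K c h3
  have h4' : aeval (fun e => algebraMap K L (c e)) Δ4 ≠ 0 := by
    have e2 : aeval (fun e => algebraMap K L (c e)) Δ4 = algebraMap K L (aeval c Δ4) :=
      aeval_algebraMap_apply _ _ _
    rw [e2]
    exact (map_ne_zero_iff _ (algebraMap K L).injective).mpr h4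
  have hni' := H4 L _ h4' hL
  refine CI.good_of (vK k m) (natI_eq c) hprime ?_ ?_ ?_
  · intro r Φ hΦ hv
    have hd2 : Dom (chartIdeal fun e => c (pm (Equiv.swap 0 r) e)) :=
      H2 r K _ (h2 r (Finset.mem_univ r))
    have h5 : rename (vK k m) Φ = 0 := by
      refine dom_factor r hd2 _ ?_ ?_
      · rw [natI_eq]
        exact Ideal.mem_map_of_mem _ hΦ
      · intro v hvv
        have h6 := vars_rename (vK k m) Φ hvv
        rw [Finset.mem_image] at h6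
        obtain ⟨w, hw, rfl⟩ := h6
        exact hv w hw
    exact (map_eq_zero_iff _ (rename_injective _ (vK k m).injective)).mp h5
  · exact trdeg_eq' (NS.Ap_ne hns) hD le_rfl hdom
  · intro X s _ hX
    have hfin : FiniteDimensional K L := by
      have : IsScalarTower ℚ K L := inferInstance
      exact Module.Finite.of_restrictScalars_finite ℚ K L
    refine PotentiallyDense.of_birational K X _ s _ hX ⟨L, inferInstance, inferInstance, hfin,
      dense_ratPts_spec K L _ fun g hg => ?_⟩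
    obtain ⟨F, rfl⟩ := Ideal.Quotient.mk_surjective g
    exact Ideal.Quotient.eq_zero_iff_mem.mpr
      (Pool.Agent.Helper69.HK.mem_of_points hns hD hni' _ hprime le_rfl hdom F hg)

end Pool.Agent.Helper92.HK
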