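import Mathlib
import Pool.Agent.Helper92.HK.Full
import Pool.Agent.Helper92.H2.Final
import Pool.Agent.Helper28.HK.Orb
import Pool.Agent.Helper76.HK.Cfg
import Pool.Agent.Helper77.HK.NSCfg

/-!
# The final theorem for at least three factors, and the natural statement for all numbers of factors
-/

namespace Pool.Agent.Helper92.HK

open MvPolynomial Pool.Agent.Helper64.HK

theorem final {k m : ℕ} (hk : 2 ≤ k) (hm : 2 ≤ m) (a : Fin (k + 1) → Fin (m + 1)) :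
    ∃ Δ : MvPolynomial (Ix a) ℚ, Δ ≠ 0 ∧ ∀ (K : Type) [Field K] [NumberField K]
      (c : Ix a → K), aeval c Δ ≠ 0 → CI.Good K (CI.natI c) (k * (m + 1)) :=
  full_of a (fun a' => Pool.Agent.Helper77.HK.exists_ns_of
    (Pool.Agent.Helper76.HK.exists_cfg hk hm a')) (Pool.Agent.Helper28.HK.nopair hk hm a)
    (Pool.Agent.Helper47.HK.ni hm a)

/-- At least three factors. -/
theorem many {n k : ℕ} (hn : 3 ≤ n) (hk : 3 ≤ k) (d : Fin n → Fin k → ℕ) (hd : ∀ i r, 0 < d i r)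
    (hs : ∀ r, ∑ i, d i r = n + 1) :
    ∃ Δ : MvPolynomial (Σ i, CI.Mono n (d i)) ℚ, Δ ≠ 0 ∧
    ∀ (K : Type) [Field K] [NumberField K] (a : (Σ i, CI.Mono n (d i)) → K),
      aeval a Δ ≠ 0 → CI.Good K (CI.ideal d a) ((k - 1) * n) := by
  obtain ⟨m, rfl⟩ : ∃ m, n = m + 1 := ⟨n - 1, by omega⟩
  obtain ⟨l, rfl⟩ : ∃ l, k = l + 1 := ⟨k - 1, by omega⟩
  obtain ⟨a, ha⟩ := CI.exists_type d hd hs
  exact CI.natural_of ha _ (final (by omega) (by omega) a)

/-- The natural statement. -/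
theorem natural {n k : ℕ} (hn : 3 ≤ n) (hk : 2 ≤ k) (h : k = 2 → 5 ≤ n) (d : Fin n → Fin k → ℕ)
    (hd : ∀ i r, 0 < d i r) (hs : ∀ r, ∑ i, d i r = n + 1) :
    ∃ Δ : MvPolynomial (Σ i, CI.Mono n (d i)) ℚ, Δ ≠ 0 ∧
    ∀ (K : Type) [Field K] [NumberField K] (a : (Σ i, CI.Mono n (d i)) → K),
      aeval a Δ ≠ 0 → CI.Good K (CI.ideal d a) ((k - 1) * n) := by
  rcases Nat.lt_or_ge 2 k with h2 | h2
  · exact many hn h2 d hd hs
  · obtain rfl : k = 2 := by omega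
    have h3 := H2.two (h rfl) d hd hs
    rwa [show (2 - 1) * n = n by omega]

end Pool.Agent.Helper92.HK
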