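import Mathlib
import Pool.Agent.Helper92.HK.Full
import Pool.Agent.Helper92.CI.One
import Pool.Agent.Helper28.N4.NoPair4
import Pool.Agent.Helper76.N4.Exc1
import Pool.Agent.Helper76.N4.Exc2
import Pool.Agent.Helper16.N4.NS

/-!
# Two factors of dimension `n = 4`, and the frame for two factors of any dimension
-/

namespace Pool.Agent.Helper92.HK

open MvPolynomial Pool.Agent.Helper64.HK
open Pool.Agent.Helper77.HK (NS Dp)
open Pool.Agent.Helper24.HK (NoPair)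

/-- Any number of factors, from the inputs for all types. -/
theorem nat_of {k m : ℕ} (hm : 2 ≤ m)
    (hNS : ∀ a' : Fin (k + 1) → Fin (m + 1), ∃ Δ : MvPolynomial (Ix a') ℚ, Δ ≠ 0 ∧
      ∀ (K : Type) [Field K] [NumberField K] (c : Ix a' → K), aeval c Δ ≠ 0 → NS c ∧ Dp c ≠ 0)
    (hnp : ∀ a : Fin (k + 1) → Fin (m + 1), ∃ Δ : MvPolynomial (Ix a) ℚ, Δ ≠ 0 ∧
      ∀ (K : Type) [Field K] [NumberField K] (c : Ix a → K), aeval c Δ ≠ 0 →
        ∃ (L : Type) (_ : Field L) (_ : NumberField L) (_ : Algebra K L),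
          NoPair (fun e => algebraMap K L (c e)))
    (d : Fin (m + 1) → Fin (k + 1) → ℕ) (hd : ∀ i r, 0 < d i r)
    (hs : ∀ r, ∑ i, d i r = m + 1 + 1) :
    ∃ Δ : MvPolynomial (Σ i, CI.Mono (m + 1) (d i)) ℚ, Δ ≠ 0 ∧
    ∀ (K : Type) [Field K] [NumberField K] (a : (Σ i, CI.Mono (m + 1) (d i)) → K),
      aeval a Δ ≠ 0 → CI.Good K (CI.ideal d a) (k * (m + 1)) := by
  obtain ⟨a, ha⟩ := CI.exists_type d hd hs
  exact CI.natural_of ha _ (full_of a hNS (hnp a) (Pool.Agent.Helper47.HK.ni hm a))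

/-- Two factors of dimension `4`. -/
theorem four (d : Fin 4 → Fin 2 → ℕ) (hd : ∀ i r, 0 < d i r) (hs : ∀ r, ∑ i, d i r = 4 + 1) :
    ∃ Δ : MvPolynomial (Σ i, CI.Mono 4 (d i)) ℚ, Δ ≠ 0 ∧
    ∀ (K : Type) [Field K] [NumberField K] (a : (Σ i, CI.Mono 4 (d i)) → K),
      aeval a Δ ≠ 0 → CI.Good K (CI.ideal d a) 4 :=
  nat_of (k := 1) (m := 3) (by norm_num)
    (Pool.Agent.Helper16.N4.ns4 Pool.Agent.Helper76.N4.exc1 Pool.Agent.Helper76.N4.exc2)
    (Pool.Agent.Helper28.N4.nopair4_of_exc Pool.Agent.Helper76.N4.exc1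
      Pool.Agent.Helper76.N4.exc2) d hd hs

end Pool.Agent.Helper92.HK
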