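import Mathlib
import Pool.Agent.Helper92.HK.Four
import Pool.Agent.Helper92.HK.Final
import Pool.Agent.Helper92.CI.Planes
import Pool.Agent.Helper23.NSA.Exist

/-!
# The natural statement for all `n ≥ 2` and all numbers of factors, from the case `n = 3` and two
factors
-/

namespace Pool.Agent.Helper92.HK

open MvPolynomial Pool.Agent.Helper64.HK
open Pool.Agent.Helper77.HK (NS Dp)
open Pool.Agent.Helper24.HK (NoPair)

/-- Products of planes. -/
theorem planes {k : ℕ} (hk : 2 ≤ k) (d : Fin 2 → Fin k → ℕ) (hd : ∀ i r, 0 < d i r)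
    (hs : ∀ r, ∑ i, d i r = 2 + 1) :
    ∃ Δ : MvPolynomial (Σ i, CI.Mono 2 (d i)) ℚ, Δ ≠ 0 ∧
    ∀ (K : Type) [Field K] [NumberField K] (a : (Σ i, CI.Mono 2 (d i)) → K),
      aeval a Δ ≠ 0 → CI.Good K (CI.ideal d a) ((k - 1) * 2) := by
  obtain ⟨l, rfl⟩ : ∃ l, k = l + 1 := ⟨k - 1, by omega⟩
  have hl : 1 ≤ l := by omega
  exact CI.planes_of hl (fun a' => Pool.Agent.Helper23.NSA.exists_ns hl a') d hd hs

/-- Two factors of dimension `3`. -/
theorem three_of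
    (hnp : ∀ a : Fin (1 + 1) → Fin (2 + 1), ∃ Δ : MvPolynomial (Ix a) ℚ, Δ ≠ 0 ∧
      ∀ (K : Type) [Field K] [NumberField K] (c : Ix a → K), aeval c Δ ≠ 0 →
        ∃ (L : Type) (_ : Field L) (_ : NumberField L) (_ : Algebra K L),
          NoPair (fun e => algebraMap K L (c e)))
    (d : Fin 3 → Fin 2 → ℕ) (hd : ∀ i r, 0 < d i r) (hs : ∀ r, ∑ i, d i r = 3 + 1) :
    ∃ Δ : MvPolynomial (Σ i, CI.Mono 3 (d i)) ℚ, Δ ≠ 0 ∧
    ∀ (K : Type) [Field K] [NumberField K] (a : (Σ i, CI.Mono 3 (d i)) → K),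
      aeval a Δ ≠ 0 → CI.Good K (CI.ideal d a) 3 :=
  nat_of (k := 1) (m := 2) (by norm_num)
    (fun a' => Pool.Agent.Helper23.NSA.exists_ns le_rfl a') hnp d hd hs

/-- The natural statement. -/
theorem all_of
    (h3 : ∀ (d : Fin 3 → Fin 2 → ℕ) (_ : ∀ i r, 0 < d i r) (_ : ∀ r, ∑ i, d i r = 3 + 1),
      ∃ Δ : MvPolynomial (Σ i, CI.Mono 3 (d i)) ℚ, Δ ≠ 0 ∧
      ∀ (K : Type) [Field K] [NumberField K] (a : (Σ i, CI.Mono 3 (d i)) → K),
        aeval a Δ ≠ 0 → CI.Good K (CI.ideal d a) 3)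
    {n k : ℕ} (hn : 2 ≤ n) (hk : 2 ≤ k) (d : Fin n → Fin k → ℕ)
    (hd : ∀ i r, 0 < d i r) (hs : ∀ r, ∑ i, d i r = n + 1) :
    ∃ Δ : MvPolynomial (Σ i, CI.Mono n (d i)) ℚ, Δ ≠ 0 ∧
    ∀ (K : Type) [Field K] [NumberField K] (a : (Σ i, CI.Mono n (d i)) → K),
      aeval a Δ ≠ 0 → CI.Good K (CI.ideal d a) ((k - 1) * n) := by
  by_cases h2 : n = 2
  · subst h2
    exact planes hk d hd hs
  by_cases hk2 : k = 2
  · subst hk2
    by_cases hn3 : n = 3
    · subst hn3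
      exact h3 d hd hs
    by_cases hn4 : n = 4
    · subst hn4
      exact four d hd hs
    exact natural (by omega) le_rfl (fun _ => by omega) d hd hs
  · exact natural (by omega) hk (fun h => absurd h hk2) d hd hs

end Pool.Agent.Helper92.HK
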