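import Mathlib
import Pool.Agent.Helper92.HK.All
import Pool.Agent.Helper92.CI.Lines

/-!
# The natural statement for all `n ≥ 1` and all numbers of factors, from the cases `n = 1` and
`n = 3` with two factors
-/

namespace Pool.Agent.Helper92.HK

open MvPolynomial Pool.Agent.Helper64.HK AlgebraicGeometry CategoryTheory Pool.Agent.Helper15
open Pool.Agent.Helper47.HK (chartIdeal)

/-- Products of lines. -/
theorem lines
    (hpd : ∀ (k : ℕ) (_ : 1 ≤ k) (a : Fin (k + 1) → Fin (0 + 1)),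
      ∃ Δ : MvPolynomial (Ix a) ℚ, Δ ≠ 0 ∧
      ∀ (K : Type) [Field K] [NumberField K] (c : Ix a → K), aeval c Δ ≠ 0 →
      ∀ (X : Scheme.{0}) (s : X ⟶ Spec (CommRingCat.of K)) [IrreducibleSpace X],
        BirationalOver K X (Spec (CommRingCat.of
          (MvPolynomial ((Fin k × Fin (0 + 1)) ⊕ Fin (0 + 1)) K ⧸ chartIdeal c))) s
          (Spec.map (CommRingCat.ofHom (algebraMap K
            (MvPolynomial ((Fin k × Fin (0 + 1)) ⊕ Fin (0 + 1)) K ⧸ chartIdeal c)))) →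
        PotentiallyDense K X s)
    {k : ℕ} (hk : 2 ≤ k) (d : Fin 1 → Fin k → ℕ) (hd : ∀ i r, 0 < d i r)
    (hs : ∀ r, ∑ i, d i r = 1 + 1) :
    ∃ Δ : MvPolynomial (Σ i, CI.Mono 1 (d i)) ℚ, Δ ≠ 0 ∧
    ∀ (K : Type) [Field K] [NumberField K] (a : (Σ i, CI.Mono 1 (d i)) → K),
      aeval a Δ ≠ 0 → CI.Good K (CI.ideal d a) ((k - 1) * 1) := by
  obtain ⟨l, rfl⟩ : ∃ l, k = l + 1 := ⟨k - 1, by omega⟩
  have hl : 1 ≤ l := by omega
  exact CI.lines_of (fun a' => Pool.Agent.Helper23.NSA.exists_ns hl a') (hpd l hl) d hd hs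

/-- The natural statement. -/
theorem total_of
    (hpd : ∀ (k : ℕ) (_ : 1 ≤ k) (a : Fin (k + 1) → Fin (0 + 1)),
      ∃ Δ : MvPolynomial (Ix a) ℚ, Δ ≠ 0 ∧
      ∀ (K : Type) [Field K] [NumberField K] (c : Ix a → K), aeval c Δ ≠ 0 →
      ∀ (X : Scheme.{0}) (s : X ⟶ Spec (CommRingCat.of K)) [IrreducibleSpace X],
        BirationalOver K X (Spec (CommRingCat.of
          (MvPolynomial ((Fin k × Fin (0 + 1)) ⊕ Fin (0 + 1)) K ⧸ chartIdeal c))) s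
          (Spec.map (CommRingCat.ofHom (algebraMap K
            (MvPolynomial ((Fin k × Fin (0 + 1)) ⊕ Fin (0 + 1)) K ⧸ chartIdeal c)))) →
        PotentiallyDense K X s)
    (h3 : ∀ (d : Fin 3 → Fin 2 → ℕ) (_ : ∀ i r, 0 < d i r) (_ : ∀ r, ∑ i, d i r = 3 + 1),
      ∃ Δ : MvPolynomial (Σ i, CI.Mono 3 (d i)) ℚ, Δ ≠ 0 ∧
      ∀ (K : Type) [Field K] [NumberField K] (a : (Σ i, CI.Mono 3 (d i)) → K),
        aeval a Δ ≠ 0 → CI.Good K (CI.ideal d a) 3)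
    {n k : ℕ} (hn : 1 ≤ n) (hk : 2 ≤ k) (d : Fin n → Fin k → ℕ)
    (hd : ∀ i r, 0 < d i r) (hs : ∀ r, ∑ i, d i r = n + 1) :
    ∃ Δ : MvPolynomial (Σ i, CI.Mono n (d i)) ℚ, Δ ≠ 0 ∧
    ∀ (K : Type) [Field K] [NumberField K] (a : (Σ i, CI.Mono n (d i)) → K),
      aeval a Δ ≠ 0 → CI.Good K (CI.ideal d a) ((k - 1) * n) := by
  by_cases h1 : n = 1
  · subst h1
    exact lines hpd hk d hd hs
  · exact all_of h3 (by omega) hk d hd hs

end Pool.Agent.Helper92.HK
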