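import Mathlib
import Pool.Agent.Helper92.HK.Done
import Pool.Agent.Helper23.N1.PD

/-!
# The natural statement for all `n ≥ 1` and all numbers of factors
-/

namespace Pool.Agent.Helper92.HK

open MvPolynomial

/-- The natural statement. -/
theorem total {n k : ℕ} (hn : 1 ≤ n) (hk : 2 ≤ k) (d : Fin n → Fin k → ℕ)
    (hd : ∀ i r, 0 < d i r) (hs : ∀ r, ∑ i, d i r = n + 1) :
    ∃ Δ : MvPolynomial (Σ i, CI.Mono n (d i)) ℚ, Δ ≠ 0 ∧
    ∀ (K : Type) [Field K] [NumberField K] (a : (Σ i, CI.Mono n (d i)) → K),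
      aeval a Δ ≠ 0 → CI.Good K (CI.ideal d a) ((k - 1) * n) :=
  total_of (fun _ hk a => Pool.Agent.Helper23.N1.pd1 hk a) three hn hk d hd hs

end Pool.Agent.Helper92.HK
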